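import Pool.Agent.Y5.F.Q5

/-! The induction over the stages. -/

open Set Filter Topology MeasureTheory

set_option autoImplicit false

namespace Pool.Agent.Y5.F

open Pool.Agent.Y5.E (At Aw Ut Uw loc)

namespace Gd

variable {κ lam N : ℝ} {L C ℓ : ℕ → ℝ} {B : ℕ → ℕ → ℝ} {T : ℝ} {x w f : ℕ → ℝ → ℝ}
variable {n : ℕ} {σ a : ℕ → ℝ} {t1 : ℝ}

/-- amplitudes of the earlier stages -/
lemma ind_back (h : Stg κ lam L T x w n σ a) : ∀ k i, i + k = n → a i ≤ (1000 / 9) ^ k * a n := by
  intro k
  induction k with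
  | zero =>
    intro i hi
    have : i = n := by omega
    rw [this, pow_zero, one_mul]
  | succ k ih =>
    intro i hi
    have h1 := ih (i + 1) (by omega)
    have h2 := astep h (i := i) (by omega)
    calc a i ≤ 1000 / 9 * a (i + 1) := h2
      _ ≤ 1000 / 9 * ((1000 / 9) ^ k * a n) := by gcongr
      _ = _ := by rw [pow_succ]; ring

lemma exp_lam (q : Pk κ lam N L C ℓ B) : 10000 / 99 ≤ Real.exp (1 / 10000 * lam) := by
  have h1 := q.lam_big
  have h2 := Real.add_one_le_exp (1 / 10000 * lam)
  linarith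

/-- One step of the induction. -/
theorem ind_step (hCC : S_CURC) (g : Gd κ lam N L C ℓ B T x w f) (h : Stg κ lam L T x w n σ a) :
    Cur κ lam L T x w n σ a T ∨ ∃ σ' a', Stg κ lam L T x w (n + 1) σ' a' := by
  have q := g.q
  have hlm := q.lamp
  have hlmb := q.lam_big
  have hLp := q.Lp n
  have h0 : 0 ≤ σ n := σnn h le_rfl
  have ha := apos h n le_rfl
  have hG := g.Gpos h n le_rfl
  set T' := min T (σ n + 32 / 1000 * lam / (L n * a n)) with hT'
  have hσT' : σ n < T' := lt_min h.σT (by
    have : 0 < 32 / 1000 * lam / (L n * a n) := by positivity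
    linarith)
  have hT'T : T' ≤ T := min_le_left _ _
  set F : ℝ → ℝ := fun t => max (Yk κ x w (n + 1) t - (1 / 100 * x n t) ^ 2)
    (9 / 10 * a n - x n t) with hF
  have hsub : Ico (σ n) T' ⊆ Ico 0 T := fun t ht => ⟨h0.trans ht.1, ht.2.trans_le hT'T⟩
  have hfc : ContinuousOn F (Ico (σ n) T') := by
    refine ContinuousOn.sup ?_ ?_
    · exact ((g.Ycont (n + 1)).mono hsub).sub ((continuousOn_const.mul
        ((g.cont n).mono hsub)).pow 2)
    · exact continuousOn_const.sub ((g.cont n).mono hsub)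
  have hXn : 0 < x n (σ n) := (by positivity : 0 < 995 / 1000 * a n).trans_le h.init
  have hf0 : F (σ n) < 0 := by
    refine max_lt ?_ ?_
    · have h1 := h.tl 0
      rw [add_zero] at h1
      have h3 : Real.exp (-(Rp 0) * lam) ≤ 1 / 10 ^ 20 := q.exp_small (by
        rw [Rp]; norm_num)
      have h2 : √(Yk κ x w (n + 1) (σ n)) < 1 / 100 * x n (σ n) := by
        calc √(Yk κ x w (n + 1) (σ n)) ≤ a n * Real.exp (-(Rp 0) * lam) := h1
          _ ≤ a n * (1 / 10 ^ 20) := by gcongr
          _ < 1 / 100 * (995 / 1000 * a n) := by nlinarith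
          _ ≤ 1 / 100 * x n (σ n) := by have := h.init; gcongr
      have h6 : Yk κ x w (n + 1) (σ n) < (1 / 100 * x n (σ n)) ^ 2 := by
        rw [← Real.sq_sqrt (g.Y_nonneg (n + 1) (σ n))]
        gcongr
      linarith
    · have := h.init; linarith
  rcases Pool.Agent.Y5.first_time hfc hf0 with hI | ⟨t1, ht1, hft1, hbelow⟩
  · -- incomplete stage
    left
    have hc : Cur κ lam L T x w n σ a T' := ⟨hσT', hT'T, min_le_right _ _, fun t ht => by
      have h1 := hI t ht
      have h2 := (max_lt_iff.1 h1)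
      exact ⟨by linarith [h2.1], by linarith [h2.2]⟩⟩
    have hdur : (T' - σ n) * (L n * a n) ≤ 31 / 1000 * lam := by
      by_contra hcon
      push Not at hcon
      set v := σ n + 31 / 1000 * lam / (L n * a n) with hv
      have hv1 : σ n < v := by
        have : 0 < 31 / 1000 * lam / (L n * a n) := by positivity
        linarith
      have hv2 : v < T' := by
        have : 31 / 1000 * lam / (L n * a n) < T' - σ n := by
          rw [div_lt_iff₀ hG]; exact hcon
        linarith
      obtain ⟨t, ht1, ht2⟩ := exists_between hv2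
      have h1 := (hCC κ lam N L C ℓ B T x w f n σ a T' g h hc t ⟨hv1.trans ht1, ht2⟩).time
      have h2 : 31 / 1000 * lam < (t - σ n) * (L n * a n) := by
        rw [← div_lt_iff₀ hG]; linarith
      linarith
    have hT'eq : T' = T := by
      by_contra hne
      have h1 : T' = σ n + 32 / 1000 * lam / (L n * a n) := by
        rcases min_choice T (σ n + 32 / 1000 * lam / (L n * a n)) with h2 | h2
        · exact absurd h2 hne
        · exact h2
      have h2 : (T' - σ n) * (L n * a n) = 32 / 1000 * lam := by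
        rw [h1, add_sub_cancel_left, div_mul_cancel₀ _ hG.ne']
      linarith
    rwa [hT'eq] at hc
  · -- complete stage
    right
    have ht1T : t1 < T := ht1.2.trans_le hT'T
    have ht10 : 0 < t1 := h0.trans_lt ht1.1
    have hc : Cur κ lam L T x w n σ a t1 := ⟨ht1.1, ht1T.le, ht1.2.le.trans (min_le_right _ _),
      fun t ht => by
        have h1 := hbelow t ht
        have h2 := (max_lt_iff.1 h1)
        exact ⟨by linarith [h2.1], by linarith [h2.2]⟩⟩
    have hcc := hCC κ lam N L C ℓ B T x w f n σ a t1 g h hc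
    have hX : 99 / 100 * a n ≤ x n t1 := by
      have := Pool.Agent.Y5.lim_le (f := fun τ => -(x n τ)) (T := T) (α := σ n) (t := t1)
        (c := -(99 / 100 * a n)) (g.cont n).neg h0 ht1T ht1.1 (fun τ hτ => by
          have := (hcc τ hτ).X
          linarith)
      linarith
    have hXp : 0 < x n t1 := (by positivity : 0 < 99 / 100 * a n).trans_le hX
    have hY1 : Yk κ x w (n + 1) t1 = (1 / 100 * x n t1) ^ 2 := by
      have h1 : 9 / 10 * a n - x n t1 < 0 := by linarith
      have h2 : max (Yk κ x w (n + 1) t1 - (1 / 100 * x n t1) ^ 2) (9 / 10 * a n - x n t1) = 0 :=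
        hft1
      rcases max_choice (Yk κ x w (n + 1) t1 - (1 / 100 * x n t1) ^ 2) (9 / 10 * a n - x n t1)
        with h3 | h3
      · rw [h3] at h2; linarith
      · rw [h3] at h2; linarith
    have hCp := q.Cp n
    have hCs := q.C_small n
    have hZ0 : -(1 / 10 ^ 20 * x n t1) ≤ x (n + 1) t1 := by
      have h2 := Pool.Agent.Y5.lim_le (f := fun τ => -(x (n + 1) τ) - C n / 8 * x n τ) (T := T)
        (α := σ n) (t := t1) (c := 0)
        ((g.cont (n + 1)).neg.sub (continuousOn_const.mul (g.cont n))) h0 ht1T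
        ht1.1 (fun τ hτ => by
          have h3 := (hcc τ hτ).r
          have h4 : 0 < x n τ := by
            have := (hc.act τ ⟨hτ.1.le, hτ.2⟩).2
            have : 0 < 9 / 10 * a n := by positivity
            linarith
          rw [le_div_iff₀ h4] at h3
          linarith)
      have h3 : C n / 8 * x n t1 ≤ 1 / 10 ^ 20 * x n t1 :=
        mul_le_mul_of_nonneg_right (by linarith) hXp.le
      linarith
    have hw1 : w (n + 1) t1 ≤ 11 / 10 * dl1 lam * a n :=
      Pool.Agent.Y5.lim_le (T := T) (α := σ n) (g.wcont (n + 1)) h0 ht1T ht1.1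
        (fun τ hτ => (hcc τ hτ).w1)
    have htl : ∀ j : ℕ, √(Yk κ x w (n + 2 + j) t1) ≤
        a n * Real.exp (-(Rr j - 102 / 10000) * lam) := fun j =>
      Pool.Agent.Y5.lim_le (f := fun τ => √(Yk κ x w (n + 2 + j) τ)) (T := T) (α := σ n)
        (g.Ycont (n + 2 + j)).sqrt h0 ht1T ht1.1 (fun τ hτ => (hcc τ hτ).tl j)
    have htw : ∀ j : ℕ, w (n + 2 + j) t1 ≤
        dlt lam * (a n * Real.exp (-(Rr j - 102 / 10000) * lam)) := fun j =>
      Pool.Agent.Y5.lim_le (T := T) (α := σ n) (g.wcont (n + 2 + j)) h0 ht1T ht1.1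
        (fun τ hτ => (hcc τ hτ).tw j)
    have hng : ∀ j : ℕ, -(a n * Real.exp (-(Rm j - 102 / 10000) * lam)) ≤
        x (n + 2 + j) t1 := fun j => by
      have := Pool.Agent.Y5.lim_le (f := fun τ => -(x (n + 2 + j) τ)) (T := T) (α := σ n)
        (t := t1) (c := a n * Real.exp (-(Rm j - 102 / 10000) * lam))
        (g.cont (n + 2 + j)).neg h0 ht1T ht1.1 (fun τ hτ => by
          have := (hcc τ hτ).ng j
          linarith)
      linarith
    set b : ℝ := 1 / 100 * x n t1 with hb
    have hbp : 0 < b := by positivity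
    have hab : a n ≤ 10000 / 99 * b := by rw [hb]; linarith
    have hae : a n ≤ Real.exp (1 / 10000 * lam) * b :=
      hab.trans (mul_le_mul_of_nonneg_right (exp_lam q) hbp.le)
    -- exponents
    have hexp : ∀ y z : ℝ, z + 1 / 10000 ≤ y → a n * Real.exp (-y * lam) ≤
        b * Real.exp (-z * lam) := by
      intro y z hyz
      calc a n * Real.exp (-y * lam) ≤ (Real.exp (1 / 10000 * lam) * b) * Real.exp (-y * lam) :=
            mul_le_mul_of_nonneg_right hae (Real.exp_pos _).le
        _ = b * Real.exp (1 / 10000 * lam + -y * lam) := by rw [Real.exp_add]; ring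
        _ ≤ b * Real.exp (-z * lam) := by
            refine mul_le_mul_of_nonneg_left (Real.exp_le_exp.2 ?_) hbp.le
            nlinarith
    refine ⟨fun i => if i ≤ n then σ i else t1, fun i => if i ≤ n then a i else b, ?_⟩
    have hn1 : ¬ (n + 1 ≤ n) := by omega
    constructor
    · simp [h.σ0]
    · simp [h.a0]
    · intro i hi
      rcases Nat.lt_succ_iff_lt_or_eq.1 hi with h1 | h1
      · rw [if_pos (by omega), if_pos (by omega)]; exact h.σlt i h1
      · subst h1
        rw [if_pos le_rfl, if_neg (by omega)]; exact ht1.1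
    · rw [if_neg hn1]; exact ht1T
    · intro i hi
      rcases Nat.lt_succ_iff_lt_or_eq.1 hi with h1 | h1
      · rw [if_pos (by omega), if_pos (by omega), if_pos (by omega)]; exact h.dur i h1
      · subst h1
        rw [if_pos le_rfl, if_neg (by omega), if_pos le_rfl]
        have := hc.le
        linarith
    · intro i hi
      rcases Nat.lt_succ_iff_lt_or_eq.1 hi with h1 | h1
      · rw [if_pos (by omega), if_pos (by omega)]; exact h.agrow i h1
      · subst h1
        rw [if_pos le_rfl, if_neg (by omega)]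
        linarith
    · intro i hi
      rcases Nat.lt_succ_iff_lt_or_eq.1 hi with h1 | h1
      · rw [if_pos (by omega), if_pos (by omega)]; exact h.adec i h1
      · subst h1
        rw [if_pos le_rfl, if_neg (by omega)]
        have h2 := ((g.UB h (t1 := T') hT'T (min_le_right _ _) i le_rfl).1 t1
          ⟨ht1.1.le, ht1.2⟩).2.1
        have h3 := g.x_le ⟨ht10.le, ht1T⟩ i
        have h4 := le_abs_self (x i t1)
        linarith
    · intro i hi
      rcases Nat.lt_succ_iff_lt_or_eq.1 hi with h1 | h1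
      · rw [if_pos (by omega), if_pos (by omega)]; exact h.cross i h1
      · subst h1
        rw [if_neg (by omega), if_neg (by omega), hb]
        ring
    · intro i hi
      rcases Nat.lt_succ_iff_lt_or_eq.1 (Nat.lt_succ_of_le hi) with h1 | h1
      · rw [if_pos (by omega), if_pos (by omega)]; exact h.aY i (by omega)
      · subst h1
        rw [if_neg (by omega), if_neg (by omega), hY1]
        exact Real.sqrt_sq hbp.le
    · intro i hi
      rcases Nat.lt_succ_iff_lt_or_eq.1 (Nat.lt_succ_of_le hi) with h1 | h1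
      · rw [if_pos (by omega), if_pos (by omega)]; exact h.wi i (by omega)
      · subst h1
        rw [if_neg (by omega), if_neg (by omega)]
        have hd := dl1_pos lam
        calc w (n + 1) t1 ≤ 11 / 10 * dl1 lam * a n := hw1
          _ ≤ 11 / 10 * dl1 lam * (10000 / 99 * b) := by gcongr
          _ = (11 / 10 * (10000 / 99)) * (dl1 lam * b) := by ring
          _ ≤ 200 * (dl1 lam * b) := by
              refine mul_le_mul_of_nonneg_right (by norm_num) (by positivity)
          _ = 200 * dl1 lam * b := by ring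
    · rw [if_neg hn1, if_neg hn1]
      have h1 := g.Y_succ (t := t1) ⟨ht10.le, ht1T⟩ (n + 1)
      rw [hY1] at h1
      have e : n + 1 + 1 = n + 2 := rfl
      rw [e] at h1
      -- the tail is small
      have h3 : √(Yk κ x w (n + 2) t1) ≤ 1 / 10 ^ 6 * b := by
        have h4 := htl 0
        rw [add_zero] at h4
        have h5 : Real.exp (-(Rr 0 - 102 / 10000) * lam) ≤ 1 / 10 ^ 20 := q.exp_small (by
          rw [Rr]; norm_num)
        calc √(Yk κ x w (n + 2) t1) ≤ a n * Real.exp (-(Rr 0 - 102 / 10000) * lam) := h4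
          _ ≤ (10000 / 99 * b) * (1 / 10 ^ 20) := by gcongr
          _ ≤ _ := by nlinarith
      have h4 : Yk κ x w (n + 2) t1 ≤ (1 / 10 ^ 6 * b) ^ 2 := by
        rw [← Real.sq_sqrt (g.Y_nonneg (n + 2) t1)]
        gcongr
      have hw0 := g.sy.w0 (n + 1) t1 ⟨ht10.le, ht1T⟩
      have h4w : w (n + 1) t1 ≤ 1 / 10 ^ 6 * b := by
        have h5 := dl1_small1 q
        have hd := dl1_pos lam
        calc w (n + 1) t1 ≤ 11 / 10 * dl1 lam * a n := hw1
          _ ≤ 11 / 10 * dl1 lam * (10000 / 99 * b) := by gcongr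
          _ = (11 / 10 * (10000 / 99) * dl1 lam) * b := by ring
          _ ≤ 1 / 10 ^ 6 * b := by
              refine mul_le_mul_of_nonneg_right ?_ hbp.le
              linarith
      have h4w2 : w (n + 1) t1 ^ 2 ≤ (1 / 10 ^ 6 * b) ^ 2 := by gcongr
      have hκY : κ ^ 2 * Yk κ x w (n + 2) t1 ≤ Yk κ x w (n + 2) t1 :=
        mul_le_of_le_one_left (g.Y_nonneg (n + 2) t1) q.κsq
      have h5 : (996 / 1000 * b) ^ 2 ≤ x (n + 1) t1 ^ 2 := by
        have : 0 ≤ b ^ 2 := by positivity
        nlinarith
      have h6 : 996 / 1000 * b ≤ |x (n + 1) t1| := by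
        exact (le_abs_self _).trans (sq_le_sq.1 h5)
      rcases le_total 0 (x (n + 1) t1) with h7 | h7
      · rw [abs_of_nonneg h7] at h6
        linarith
      · rw [abs_of_nonpos h7] at h6
        exfalso
        have h8 : x n t1 = 100 * b := by rw [hb]; ring
        rw [h8] at hZ0
        linarith
    · intro j
      rw [if_neg hn1, if_neg hn1]
      exact (htl j).trans (hexp _ _ (by rw [Rp, Rr]; linarith))
    · intro j
      rw [if_neg hn1, if_neg hn1]
      have h1 := hexp (Rm j - 102 / 10000) (Rn j) (by rw [Rm, Rn]; linarith)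
      exact (neg_le_neg h1).trans (hng j)
    · intro j
      rw [if_neg hn1, if_neg hn1]
      have hd := dlt_pos lam
      exact (htw j).trans (mul_le_mul_of_nonneg_left
        (hexp _ _ (by rw [Rp, Rr]; linarith)) hd.le)

lemma ind_base (g : Gd κ lam N L C ℓ B T x w f) :
    Stg κ lam L T x w 0 (fun _ => 0) (fun _ => 1) := by
  have hx : ∀ j : ℕ, x (0 + 1 + j) 0 = 0 := fun j => by
    have e : 0 + 1 + j = j + 1 := by omega
    rw [e]; exact g.sy.xs j
  have hY1 : ∀ j : ℕ, Yk κ x w (0 + 1 + j) 0 = 0 := by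
    intro j
    rw [Yk]
    have : ∀ k : ℕ, x (0 + 1 + j + k) 0 ^ 2 + w (0 + 1 + j + k) 0 ^ 2 = 0 := fun k => by
      rw [add_assoc, hx, g.sy.ws]; norm_num
    simp only [this, mul_zero, tsum_zero]
  have hY0 := hY1 0
  rw [add_zero] at hY0
  constructor
  · rfl
  · rfl
  · intro i hi; omega
  · exact g.hT
  · intro i hi; omega
  · intro i hi; omega
  · intro i hi; omega
  · intro i hi; omega
  · intro i hi
    have : i = 0 := by omega
    subst this
    rw [g.Y_succ ⟨le_rfl, g.hT⟩ 0, g.sy.x0, g.sy.ws, hY0]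
    norm_num
  · intro i hi
    have : i = 0 := by omega
    subst this
    rw [g.sy.ws]
    have := dl1_pos lam
    positivity
  · rw [g.sy.x0]; norm_num
  · intro j
    rw [hY1, Real.sqrt_zero]
    positivity
  · intro j
    rw [hx, neg_nonpos]
    positivity
  · intro j
    rw [g.sy.ws]
    have := dlt_pos lam
    positivity

/-- growth at the beginning of a stage -/
lemma ind_grow (g : Gd κ lam N L C ℓ B T x w f) (h : Stg κ lam L T x w n σ a) :
    ∃ t ∈ Ico 0 T, ∃ a, (9 / 1000) ^ n ≤ a ∧ 99 / 100 * a ≤ x n t ∧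
    (∀ i < n, |x i t| ≤ 200 * (1000 / 9) ^ (n - i) * a) ∧
    (∀ i ≤ n, w i t ≤ Real.exp (-(lam / 10)) * (1000 / 9) ^ (n - i) * a) ∧
    ∀ k : ℕ, √(Yk κ x w (n + 1 + k) t) ≤ Real.exp (-(lam / 100 * (k + 1))) * a := by
  have q := g.q
  have hlm := q.lamp
  have hlmb := q.lam_big
  have h0 : 0 ≤ σ n := σnn h le_rfl
  have ha := apos h n le_rfl
  have hG := g.Gpos h n le_rfl
  have hp : 0 < 32 / 1000 * lam / (L n * a n) := by positivity
  have hUB := g.UB h (t1 := min T (σ n + 32 / 1000 * lam / (L n * a n))) (min_le_left _ _)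
    (min_le_right _ _)
  have hlt : σ n < min T (σ n + 32 / 1000 * lam / (L n * a n)) := lt_min h.σT (by linarith)
  refine ⟨σ n, ⟨h0, h.σT⟩, a n, alow h n le_rfl, ?_, ?_, ?_, ?_⟩
  · have := h.init; linarith
  · intro i hi
    have h1 := (hUB i hi.le).2 hi (σ n) ⟨σmono h (by omega) le_rfl, hlt⟩
    have h2 := ind_back h (n - (i + 1)) (i + 1) (by omega)
    have h3 := g.x_le ⟨h0, h.σT⟩ i
    have h4 : (1000 / 9 : ℝ) ^ (n - (i + 1)) ≤ (1000 / 9) ^ (n - i) :=
      pow_le_pow_right₀ (by norm_num) (by omega)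
    calc |x i (σ n)| ≤ √(Yk κ x w i (σ n)) := h3
      _ ≤ 101 * a (i + 1) := h1
      _ ≤ 101 * ((1000 / 9) ^ (n - (i + 1)) * a n) := by gcongr
      _ ≤ 200 * ((1000 / 9) ^ (n - i) * a n) := by gcongr; norm_num
      _ = _ := by ring
  · intro i hi
    have h1 := ((hUB i hi).1 (σ n) ⟨σmono h hi le_rfl, hlt⟩).2.2
    have h2 := ind_back h (n - i) i (by omega)
    have h3 : 200 * dl1 lam ≤ Real.exp (-(lam / 10)) := by
      have h4 : dl1 lam = Real.exp (-(3 / 10 * lam)) * Real.exp (-(lam / 10)) := by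
        rw [dl1, ← Real.exp_add]; congr 1; ring
      have h5 : 200 * Real.exp (-(3 / 10 * lam)) ≤ 1 := by
        rw [Real.exp_neg, ← div_eq_mul_inv, div_le_one (Real.exp_pos _)]
        have := Real.add_one_le_exp (3 / 10 * lam)
        linarith
      rw [h4, ← mul_assoc]
      exact mul_le_of_le_one_left (Real.exp_pos _).le h5
    have hai := apos h i hi
    calc w i (σ n) ≤ 200 * dl1 lam * a i := h1
      _ ≤ Real.exp (-(lam / 10)) * ((1000 / 9) ^ (n - i) * a n) :=
          mul_le_mul h3 h2 hai.le (Real.exp_pos _).le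
      _ = _ := by ring
  · intro k
    refine (h.tl k).trans ?_
    rw [mul_comm]
    refine mul_le_mul_of_nonneg_right (Real.exp_le_exp.2 ?_) ha.le
    have hk : (0 : ℝ) ≤ k := Nat.cast_nonneg k
    have h1 : 1 / 100 * ((k : ℝ) + 1) ≤ Rp k := by rw [Rp]; linarith
    have h2 := mul_le_mul_of_nonneg_right h1 hlm.le
    linarith

end Gd

/-- **Induction over the stages.** -/
theorem t_IND : S_IND := by
  intro hCC κ lam N L C ℓ B hq
  refine ⟨lam, ?_⟩
  intro T x w f hT hsys
  have g : Gd κ lam N L C ℓ B T x w f := ⟨hq, hT, hsys⟩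
  have q := g.q
  have hlm := q.lamp
  by_cases hcur : ∃ (n : ℕ) (σ a : ℕ → ℝ), Stg κ lam L T x w n σ a ∧ Cur κ lam L T x w n σ a T
  · obtain ⟨n, σ, a, h, hc⟩ := hcur
    have h0 : 0 ≤ σ n := Gd.σnn h le_rfl
    have ha := Gd.apos h n le_rfl
    have hσT := hc.lt
    refine ⟨?_, Or.inr ⟨n + 2, a n, (σ n + T) / 2, ⟨by linarith, by linarith⟩, ?_⟩⟩
    · have := g.tot h hc.le
      linarith
    · intro t ht k
      have h1 := (hCC κ lam _ L C ℓ B T x w f n σ a T g h hc t
        ⟨by linarith [ht.1], ht.2⟩).tl k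
      refine h1.trans ?_
      refine mul_le_mul_of_nonneg_left (Real.exp_le_exp.2 ?_) ha.le
      have hk : (0 : ℝ) ≤ k := Nat.cast_nonneg k
      have h2 : 1 / 100 * (k : ℝ) ≤ Rr k - 102 / 10000 := by rw [Rr]; linarith
      have h3 := mul_le_mul_of_nonneg_right h2 hlm.le
      linarith
  · have hall : ∀ n, ∃ σ a, Stg κ lam L T x w n σ a := by
      intro n
      induction n with
      | zero => exact ⟨_, _, g.ind_base⟩
      | succ n ih =>
        obtain ⟨σ, a, h⟩ := ih
        rcases g.ind_step hCC h with h1 | h1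
        · exact absurd ⟨n, σ, a, h, h1⟩ hcur
        · exact h1
    refine ⟨?_, Or.inl fun n => ?_⟩
    · by_contra hcon
      push Not at hcon
      obtain ⟨Mx, hM⟩ := g.sy.bdd lam hcon
      have htend : Tendsto (fun n : ℕ => (2 : ℝ) ^ n * (1 / 2)) atTop atTop :=
        (tendsto_pow_atTop_atTop_of_one_lt one_lt_two).atTop_mul_const (by norm_num)
      obtain ⟨n, hn⟩ := (htend.eventually_gt_atTop Mx).exists
      obtain ⟨σ, a, h⟩ := hall n
      have hG := g.Gpos h n le_rfl
      have hp : 0 < 32 / 1000 * lam / (L n * a n) := by positivity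
      have h0 : 0 ≤ σ n := Gd.σnn h le_rfl
      have hσ := g.tot h (t1 := σ n) (by linarith)
      have h1 := hM (σ n) ⟨h0, by linarith⟩ n
      have hw0 := g.sy.w0 n (σ n) ⟨h0, h.σT⟩
      have h2 : 2 ^ n * (1 / 2) ≤ L n ^ 10 * (|x n (σ n)| + w n (σ n)) := by
        have h3 := g.G1 h n le_rfl
        have h4 := h.init
        have h5 := q.Lpow' n
        have h6 := q.L1 n
        have h7 := q.Lp n
        have h8 : (2 : ℝ) ^ n ≤ (10 ^ 30) ^ n := by gcongr; norm_num
        have ha := Gd.apos h n le_rfl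
        calc (2 : ℝ) ^ n * (1 / 2) ≤ L n * (995 / 1000 * (L n * a n)) := by
              have : (2 : ℝ) ^ n ≤ L n := h8.trans h5
              gcongr
              linarith
          _ = L n ^ 2 * (995 / 1000 * a n) := by ring
          _ ≤ L n ^ 10 * (|x n (σ n)| + w n (σ n)) := by
              have h9 : L n ^ 2 ≤ L n ^ 10 := pow_le_pow_right₀ h6 (by norm_num)
              have h10 : 995 / 1000 * a n ≤ |x n (σ n)| + w n (σ n) := by
                have := le_abs_self (x n (σ n))
                linarith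
              exact mul_le_mul h9 h10 (by positivity) (by positivity)
      linarith
    · obtain ⟨σ, a, h⟩ := hall n
      exact g.ind_grow h

end Pool.Agent.Y5.F
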